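import Pool.Agent.helper34.AC.Spec2

set_option autoImplicit false

namespace Pool.Agent.helper34.AC

/-- The bound for all graphs. -/
theorem PA (hAVG : AVG_stmt) (hMAIN : MAIN_stmt) (hWEX : WEX_stmt) (hBUP : BUP_stmt)
    (hLTW : LTW_stmt) (hBRC : BRC_stmt) : PA_stmt := by
  classical
  intro V _ G
  obtain ⟨hN0, hN1, havg⟩ := hAVG V G
  have hM := hMAIN V G Finset.univ
  obtain ⟨hW, -, -, -, -⟩ := hWEX
  obtain ⟨-, -, hF0, -, -, hbl, -⟩ := hBRC
  set n : ℕ := Fintype.card V with hn
  have hcard : (Finset.univ : Finset V).card = n := Finset.card_univ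
  rw [hcard] at hM
  set a : ℝ := avg G + 1 with ha
  have ha1 : 1 ≤ a := by rw [ha]; linarith
  have hpa : psi n ≤ a := by
    rw [← hN1] at hM
    exact le_of_mul_le_mul_right hM hN0
  obtain ⟨hW0, hW1⟩ := hW n (Nat.cast_nonneg n)
  have hpsi1 : 1 ≤ psi n := by
    unfold psi
    exact Real.one_le_exp hW0
  have hlogpsi : Real.log (psi n) = W n := by
    unfold psi
    exact Real.log_exp _
  have hpp : psi n * Real.log (psi n) = n := by
    rw [hlogpsi]
    unfold psi
    rw [mul_comm]
    exact hW1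
  have hloga : 0 ≤ Real.log a := Real.log_nonneg ha1
  have h1 : (n : ℝ) ≤ a * Real.log a := by
    rw [← hpp]
    refine mul_le_mul hpa (Real.log_le_log (by linarith) hpa) ?_ (by linarith)
    exact Real.log_nonneg hpsi1
  refine ⟨h1, ?_⟩
  have hg0 : 0 < gb n := by
    unfold gb
    exact div_pos (hbl _) (hbl _)
  have hgl : gb n * Real.log (gb n) ≤ (n : ℝ) + 1 := by
    have := (hBUP n 0 le_rfl).2
    rw [hF0, hF0, sub_zero] at this
    exact this
  have hL : L1 n + 1 = gb n := hLTW.2.1 n
  have hcvx : gb n - a ≤ gb n * (Real.log (gb n) - Real.log a) := by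
    have h2 := Real.one_sub_inv_le_log_of_pos (x := gb n / a) (by positivity)
    rw [Real.log_div hg0.ne' (by linarith), inv_div] at h2
    have h3 := mul_le_mul_of_nonneg_left h2 hg0.le
    have h4 : gb n * (1 - a / gb n) = gb n - a := by field_simp
    rwa [h4] at h3
  have h5 : (gb n - a) * (1 + Real.log a) ≤ 1 := by
    nlinarith
  have h6 : gb n - a ≤ 1 / (1 + Real.log a) := by
    rw [le_div_iff₀ (by linarith)]
    exact h5
  linarith

end Pool.Agent.helper34.AC
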