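import Pool.Agent.helper34.AC.Spec2

set_option autoImplicit false

namespace Pool.Agent.helper34.AC

/-- The induction step, first case. -/
theorem ST1 (hWEX : WEX_stmt) (hTAN : TAN_stmt) (hCUB : CUB_stmt) : ST1_stmt := by
  intro ι s p t m hm hp hp1 ht h2 h3 hmu
  obtain ⟨-, -, -, hWpos, -⟩ := hWEX
  have hm0 : 0 < m := by linarith
  have hr : 0 < W m := hWpos m hm0
  set r : ℝ := W m with hrdef
  have hP : 0 < psi m := Real.exp_pos _
  set μ : ℝ := ∑ i ∈ s, p i * t i with hμ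
  have hμ0 : 0 ≤ μ := Finset.sum_nonneg fun i hi => mul_nonneg (hp i hi) (ht i hi).1
  -- the sum of the third order bounds
  have hsum : psi m - μ / (1 + r) - (∑ i ∈ s, p i * t i ^ 2) / (2 * psi m * (1 + r) ^ 3) -
      (∑ i ∈ s, p i * t i ^ 3) / (12 * m ^ 2) ≤ ∑ i ∈ s, p i * psi (m - t i) := by
    have h4 : ∑ i ∈ s, p i * (psi m - t i / (1 + r) - t i ^ 2 / (2 * psi m * (1 + r) ^ 3) -
        t i ^ 3 / (12 * m ^ 2)) ≤ ∑ i ∈ s, p i * psi (m - t i) := by
      refine Finset.sum_le_sum fun i hi => ?_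
      obtain ⟨ht0, ht1⟩ := ht i hi
      exact mul_le_mul_of_nonneg_left (hCUB m (t i) hm0 ht0 (by linarith)) (hp i hi)
    refine le_trans (le_of_eq ?_) h4
    have h5 : ∀ i, p i * (psi m - t i / (1 + r) - t i ^ 2 / (2 * psi m * (1 + r) ^ 3) -
        t i ^ 3 / (12 * m ^ 2)) = p i * psi m - p i * t i / (1 + r) -
          p i * t i ^ 2 / (2 * psi m * (1 + r) ^ 3) - p i * t i ^ 3 / (12 * m ^ 2) := by
      intro i; ring
    simp only [h5]
    rw [Finset.sum_sub_distrib, Finset.sum_sub_distrib, Finset.sum_sub_distrib,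
      ← Finset.sum_mul, ← Finset.sum_div, ← Finset.sum_div, ← Finset.sum_div, hp1, one_mul]
  set q : ℝ := r ^ 2 + 3 * r + 1 with hq
  have hq0 : 0 < q := by positivity
  have h2' : (∑ i ∈ s, p i * t i ^ 2) / (2 * psi m * (1 + r) ^ 3) ≤
      (1 + r) * μ / (2 * psi m * (1 + r) ^ 3) := div_le_div_of_nonneg_right h2 (by positivity)
  have h3' : (∑ i ∈ s, p i * t i ^ 3) / (12 * m ^ 2) ≤ q * μ / (12 * m ^ 2) :=
    div_le_div_of_nonneg_right h3 (by positivity)
  have htan := (hTAN m (m + 1) hm0.le (by linarith)).1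
  have htan' : psi (m + 1) ≤ psi m + 1 / (1 + r) := by
    have : m + 1 - m = 1 := by ring
    rw [this] at htan
    exact htan
  set e : ℝ := 1 / (2 * psi m * (1 + r)) + (1 + r) * q / (12 * m ^ 2) with he
  have he0 : 0 ≤ e := by positivity
  have htau : tau m = r * (1 - e) := by
    unfold tau
    rw [← hrdef, he, hq]
    ring
  rw [htau] at hmu
  have hkey : μ * (1 + e) ≤ r := by
    have h6 : μ * (1 + e) ≤ r * (1 - e) * (1 + e) :=
      mul_le_mul_of_nonneg_right hmu (by linarith)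
    nlinarith [mul_nonneg hr.le (sq_nonneg e)]
  have hr1 : 0 < 1 + r := by linarith
  have hfin : μ / (1 + r) + (1 + r) * μ / (2 * psi m * (1 + r) ^ 3) + q * μ / (12 * m ^ 2) =
      μ * (1 + e) / (1 + r) := by
    rw [he]
    field_simp
    ring
  have hle : μ * (1 + e) / (1 + r) ≤ r / (1 + r) := div_le_div_of_nonneg_right hkey hr1.le
  have hone : r / (1 + r) = 1 - 1 / (1 + r) := by
    field_simp
    ring
  linarith

end Pool.Agent.helper34.AC
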