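import Pool.Agent.helper34.AC.Spec2

set_option autoImplicit false

namespace Pool.Agent.helper34.AC

/-- The induction step, second case. -/
theorem ST2 (hWEX : WEX_stmt) (hTAN : TAN_stmt) (hFIN : FIN_stmt) : ST2_stmt := by
  intro ι s p t m hm hp hp1 ht hmu
  obtain ⟨-, hWi, hWm, -, -⟩ := hWEX
  obtain ⟨hτ0, hτ1⟩ := hFIN m hm
  set μ : ℝ := ∑ i ∈ s, p i * t i with hμ
  have hμle : μ ≤ m - 1 := by
    calc μ ≤ ∑ i ∈ s, p i * (m - 1) :=
          Finset.sum_le_sum fun i hi => mul_le_mul_of_nonneg_left (ht i hi).2 (hp i hi)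
      _ = m - 1 := by rw [← Finset.sum_mul, hp1, one_mul]
  set x : ℝ := m - 1 - μ with hx
  have hx0 : 0 ≤ x := by linarith
  have h1 : ∑ i ∈ s, p i * W (m - 1 - t i) ≤
      ∑ i ∈ s, p i * (W x + (m - 1 - t i - x) / ((1 + W x) * psi x)) := by
    refine Finset.sum_le_sum fun i hi => mul_le_mul_of_nonneg_left ?_ (hp i hi)
    exact (hTAN x (m - 1 - t i) hx0 (by linarith [(ht i hi).2])).2
  have h2 : ∑ i ∈ s, p i * (W x + (m - 1 - t i - x) / ((1 + W x) * psi x)) = W x := by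
    have h3 : ∀ i, p i * (W x + (m - 1 - t i - x) / ((1 + W x) * psi x)) =
        p i * (W x + μ / ((1 + W x) * psi x)) - p i * t i / ((1 + W x) * psi x) := by
      intro i
      rw [hx]
      ring
    simp only [h3]
    rw [Finset.sum_sub_distrib, ← Finset.sum_mul, ← Finset.sum_div, hp1, one_mul, ← hμ]
    ring
  rw [h2] at h1
  have h4 : W x ≤ W (tau m * Real.exp (tau m)) := hWm x _ hx0 (by linarith)
  rw [hWi _ hτ0] at h4
  exact h1.trans h4

end Pool.Agent.helper34.AC
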